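import Pool.Agent.Run7.h745.AH.Iface

/-! Pieces SEP and ISAH of `Run7.h745.AH`. -/

set_option autoImplicit false

noncomputable section

namespace Run7.h745.AH

open Filter Topology Matrix Pool.Agent.H188R3 Pool.Agent.TH249

namespace SI

instance fdMA (N : ℕ) : FiniteDimensional ℂ (MA (Fin N) ℂ) := by
  have e : (Fin N → Fin N → ℂ) →ₗ[ℂ] MA (Fin N) ℂ :=
    { toFun := fun f => MA.of f
      map_add' := fun _ _ => rfl
      map_smul' := fun _ _ => rfl }
  let e : (Fin N → Fin N → ℂ) →ₗ[ℂ] MA (Fin N) ℂ :=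
    { toFun := fun f => MA.of f
      map_add' := fun _ _ => rfl
      map_smul' := fun _ _ => rfl }
  exact Module.Finite.of_surjective e (fun x => ⟨fun i j => x.en i j, rfl⟩)

instance scMA (N : ℕ) : SecondCountableTopology (MA (Fin N) ℂ) := by
  have : ProperSpace (MA (Fin N) ℂ) := FiniteDimensional.proper ℂ _
  infer_instance

instance scA (s : ℕ → Bool) (n : ℕ) : SecondCountableTopology (A s n) := by
  have h : ∀ t : Fin (n + 1), SecondCountableTopology C(X n t, MA (Fin (N s n t)) ℂ) := by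
    intro t
    infer_instance
  infer_instance

end SI

theorem t_SEP : S_SEP := by
  intro s L _ j hj
  have hc : ∀ n, Continuous (j n) := fun n =>
    AddMonoidHomClass.continuous_of_bound (j n) 1 (fun x => by
      rw [one_mul]; exact norm_map_le' _ x)
  have h1 : TopologicalSpace.IsSeparable (⋃ n, Set.range (j n)) :=
    TopologicalSpace.IsSeparable.iUnion fun n => TopologicalSpace.isSeparable_range (hc n)
  have h2 : (Set.univ : Set L) ⊆ closure (⋃ n, Set.range (j n)) := by
    intro y _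
    rw [Metric.mem_closure_iff]
    intro ε hε
    obtain ⟨n, x, hx⟩ := hj.dense y ε hε
    exact ⟨j n x, Set.mem_iUnion.2 ⟨n, x, rfl⟩, by rwa [dist_eq_norm]⟩
  exact TopologicalSpace.isSeparable_univ_iff.1 (h1.closure.mono h2)

/-- continuous matrix functions -/
def SI.cv (Y : Type) [TopologicalSpace Y] [CompactSpace Y] (N : ℕ) :
    C(Y, Matrix (Fin N) (Fin N) ℂ) →⋆ₐ[ℂ] C(Y, MA (Fin N) ℂ) where
  toFun f := ⟨fun y => MA.of fun p p' => f y p p', by
    have h1 : Continuous fun y : Y => (show Matrix (Fin N) (Fin N) ℂ from f y) := f.continuous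
    exact h1⟩
  map_one' := rfl
  map_mul' _ _ := rfl
  map_zero' := rfl
  map_add' _ _ := rfl
  commutes' c := by
    ext y p p'
    show (algebraMap ℂ (Matrix (Fin N) (Fin N) ℂ) c) p p' = (algebraMap ℂ (MA (Fin N) ℂ) c).en p p'
    rw [MA.en_algebraMap, Matrix.algebraMap_matrix_apply]
  map_star' _ := rfl

/-- and conversely -/
def SI.vc (Y : Type) [TopologicalSpace Y] [CompactSpace Y] (N : ℕ)
    (f : C(Y, MA (Fin N) ℂ)) : C(Y, Matrix (Fin N) (Fin N) ℂ) :=
  ⟨fun y => Matrix.of fun p p' => (f y).en p p', by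
    have h1 : Continuous fun y : Y => (show MA (Fin N) ℂ from f y) := f.continuous
    exact h1⟩

lemma SI.cv_vc (Y : Type) [TopologicalSpace Y] [CompactSpace Y] (N : ℕ)
    (f : C(Y, MA (Fin N) ℂ)) : SI.cv Y N (SI.vc Y N f) = f := rfl

lemma SI.vc_cv (Y : Type) [TopologicalSpace Y] [CompactSpace Y] (N : ℕ)
    (f : C(Y, Matrix (Fin N) (Fin N) ℂ)) : SI.vc Y N (SI.cv Y N f) = f := rfl

/-- all components -/
def SI.cA (s : ℕ → Bool) (n : ℕ) :
    (∀ t : Fin (n + 1), C(X n t, Matrix (Fin (N s n t)) (Fin (N s n t)) ℂ)) →⋆ₐ[ℂ] A s n where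
  toFun f t := SI.cv (X n t) (N s n t) (f t)
  map_one' := by funext t; exact map_one (SI.cv _ _)
  map_mul' f g := by funext t; exact map_mul (SI.cv _ _) (f t) (g t)
  map_zero' := by funext t; exact map_zero (SI.cv _ _)
  map_add' f g := by funext t; exact map_add (SI.cv _ _) (f t) (g t)
  commutes' c := by funext t; exact AlgHomClass.commutes (SI.cv _ _) c
  map_star' f := by funext t; exact map_star (SI.cv _ _) (f t)

lemma SI.cA_surj (s : ℕ → Bool) (n : ℕ) : Function.Surjective (SI.cA s n) := by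
  intro f
  exact ⟨fun t => SI.vc _ _ (f t), rfl⟩

lemma SI.cA_inj (s : ℕ → Bool) (n : ℕ) : Function.Injective (SI.cA s n) := by
  intro f g h
  funext t
  have h1 : SI.cv (X n t) (N s n t) (f t) = SI.cv (X n t) (N s n t) (g t) := congrFun h t
  have h2 := congrArg (SI.vc (X n t) (N s n t)) h1
  rwa [SI.vc_cv, SI.vc_cv] at h2

theorem t_ISAH : S_ISAH := by
  intro s L _ j hj
  refine ⟨fun n => n + 1, fun n t => X n t, fun n t => inferInstance, fun n t => inferInstance,
    fun n t => N s n t, fun n => (j n).comp (SI.cA s n), ?_, ?_, ?_⟩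
  · intro n
    exact (hj.inj n).comp (SI.cA_inj s n)
  · rintro n _ ⟨x, rfl⟩
    obtain ⟨y, hy⟩ := SI.cA_surj s (n + 1) (φ s n (SI.cA s n x))
    refine ⟨y, ?_⟩
    show j (n + 1) (SI.cA s (n + 1) y) = j n (SI.cA s n x)
    rw [hy, hj.comp]
  · intro y
    rw [Metric.mem_closure_iff]
    intro ε hε
    obtain ⟨n, x, hx⟩ := hj.dense y ε hε
    obtain ⟨z, hz⟩ := SI.cA_surj s n x
    refine ⟨j n x, Set.mem_iUnion.2 ⟨n, z, ?_⟩, by rwa [dist_eq_norm]⟩
    show j n (SI.cA s n z) = j n x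
    rw [hz]

end Run7.h745.AH
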