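import Pool.Agent.Run7.h745.AH.Iface
import Pool.Agent.Run7.h704.AH.SEP_ISAH

/-! Piece KO of `Run7.h745.AH`: `K_1 = 0`. -/

set_option autoImplicit false

noncomputable section

namespace Run7.h745.AH

open Filter Topology Matrix Pool.Agent.H188R3 Pool.Agent.TH249

namespace KO

/-- the image of a unitary under a star homomorphism -/
def um {B C : Type} [CStarAlgebra B] [CStarAlgebra C] (f : B →⋆ₐ[ℂ] C) (u : unitary B) :
    unitary C := ⟨f u, Unitary.mem_iff.2 ⟨by
      rw [← map_star, ← map_mul, Unitary.coe_star_mul_self, map_one], by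
      rw [← map_star, ← map_mul, Unitary.mul_star_self_of_mem u.2, map_one]⟩⟩

lemma continuous_hom {B C : Type} [CStarAlgebra B] [CStarAlgebra C] (f : B →⋆ₐ[ℂ] C) :
    Continuous f :=
  AddMonoidHomClass.continuous_of_bound f 1 (fun x => by
    rw [one_mul]; exact norm_map_le' _ x)

lemma continuous_um {B C : Type} [CStarAlgebra B] [CStarAlgebra C] (f : B →⋆ₐ[ℂ] C) :
    Continuous (um f) :=
  Continuous.subtype_mk ((continuous_hom f).comp continuous_subtype_val) _

lemma um_one {B C : Type} [CStarAlgebra B] [CStarAlgebra C] (f : B →⋆ₐ[ℂ] C) :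
    um f 1 = 1 := Subtype.ext (map_one f)

lemma joined_map {B C : Type} [CStarAlgebra B] [CStarAlgebra C] (f : B →⋆ₐ[ℂ] C)
    {u v : unitary B} (h : Joined u v) : Joined (um f u) (um f v) :=
  h.elim fun γ => ⟨γ.map (continuous_um f)⟩

lemma joined_mul {B : Type} [CStarAlgebra B] {u v u' v' : unitary B} (h : Joined u v)
    (h' : Joined u' v') : Joined (u * u') (v * v') := by
  obtain ⟨γ⟩ := h
  obtain ⟨γ'⟩ := h'
  exact ⟨⟨⟨fun t => γ t * γ' t, γ.continuous.mul γ'.continuous⟩, by simp, by simp⟩⟩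

/-- products of exponentials are joined to `1` -/
lemma joined_exp {B : Type} [CStarAlgebra B] (l : List (selfAdjoint B)) :
    Joined (1 : unitary B) (l.map selfAdjoint.expUnitary).prod := by
  induction l with
  | nil => exact Joined.refl _
  | cons x l ih =>
    rw [List.map_cons, List.prod_cons]
    have := joined_mul (selfAdjoint.joined_one_expUnitary x) ih
    rwa [one_mul] at this

lemma joined_fd {B : Type} [CStarAlgebra B] [FiniteDimensional ℂ B] (u : unitary B) :
    Joined (1 : unitary B) u := by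
  have h1 : (spectrum ℂ (u : B)).Finite := by
    have : FiniteDimensional ℂ (⊤ : StarSubalgebra ℂ B) := by
      have e : (⊤ : Submodule ℂ B) ≃ₗ[ℂ] (⊤ : StarSubalgebra ℂ B) :=
        { toFun := fun x => ⟨x.1, trivial⟩
          invFun := fun x => ⟨x.1, trivial⟩
          map_add' := fun _ _ => rfl
          map_smul' := fun _ _ => rfl
          left_inv := fun _ => rfl
          right_inv := fun _ => rfl }
      exact Module.Finite.equiv e
    exact Pool.Agent.TH268.JB.finite_spec (⊤ : StarSubalgebra ℂ B) (u : B) trivial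
  obtain ⟨l, hl⟩ := Pool.Agent.TH268.JB.P_finite u h1
  rw [← hl]
  exact joined_exp l

/-- scaling of letters -/
def scL (t : unitInterval) {m : ℕ} (z : coneSet m) : coneSet m :=
  ⟨fun i j => t.1 * z.1 i j, by
    obtain ⟨ζ, h1, h2⟩ := z.2
    have ht := t.2.1
    refine ⟨fun i => √t.1 * ζ i, ?_, ?_⟩
    · have h3 : ∀ i, (√t.1 * ζ i) ^ 2 = t.1 * ζ i ^ 2 := by
        intro i; rw [mul_pow, Real.sq_sqrt ht]
      simp only [h3]
      rw [← Finset.mul_sum]
      have := t.2.2
      have h4 : 0 ≤ ∑ i, ζ i ^ 2 := Finset.sum_nonneg fun i _ => sq_nonneg _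
      nlinarith
    · intro i j
      have h3 : √t.1 * √t.1 = t.1 := Real.mul_self_sqrt ht
      calc t.1 * z.1 i j = (√t.1 * √t.1) * (ζ i * ζ j) := by rw [h3, h2]
        _ = _ := by ring⟩

/-- scaling of points -/
def scX (n t : ℕ) (r : unitInterval) (y : X n t) : X n t := fun i => scL r (y i)

lemma continuous_scX (n t : ℕ) : Continuous fun p : unitInterval × X n t => scX n t p.1 p.2 := by
  refine continuous_pi fun a => Continuous.subtype_mk
    (continuous_pi fun i => continuous_pi fun j => ?_) _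
  refine (continuous_subtype_val.comp continuous_fst).mul ?_
  exact (continuous_apply j).comp ((continuous_apply i).comp
    (continuous_subtype_val.comp ((continuous_apply a).comp continuous_snd)))

lemma scX_one (n t : ℕ) (y : X n t) : scX n t 1 y = y := by
  funext a
  refine Subtype.ext (funext fun i => funext fun j => ?_)
  show (1 : unitInterval).1 * _ = _
  simp

lemma scX_zero (n t : ℕ) (y : X n t) : scX n t 0 y = x0 n t := by
  funext a
  refine Subtype.ext (funext fun i => funext fun j => ?_)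
  show (0 : unitInterval).1 * _ = (0 : ℝ)
  simp

/-- pull back along the scaling -/
def PB (s : ℕ → Bool) (n : ℕ) (r : unitInterval) : A s n →⋆ₐ[ℂ] A s n where
  toFun f t := ⟨fun y => f t (scX n t r y), (f t).continuous.comp
    ((continuous_scX n t).comp (continuous_const.prodMk continuous_id))⟩
  map_one' := rfl
  map_mul' _ _ := rfl
  map_zero' := rfl
  map_add' _ _ := rfl
  commutes' _ := rfl
  map_star' _ := rfl

lemma PB_one (s : ℕ → Bool) (n : ℕ) (f : A s n) : PB s n 1 f = f := by
  funext t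
  ext1 y
  show f t (scX n t 1 y) = f t y
  rw [scX_one]

lemma continuous_PB (s : ℕ → Bool) (n : ℕ) (f : A s n) : Continuous fun r => PB s n r f := by
  refine continuous_pi fun t => ?_
  have h : Continuous fun p : unitInterval × X n t => f t (scX n t p.1 p.2) :=
    (f t).continuous.comp (continuous_scX n t)
  exact (ContinuousMap.curry ⟨_, h⟩).continuous

/-- evaluation at the base points -/
def ev (s : ℕ → Bool) (n : ℕ) : A s n →⋆ₐ[ℂ] (∀ t : Fin (n + 1), MA (Fin (N s n t)) ℂ) where
  toFun f t := f t (x0 n t)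
  map_one' := rfl
  map_mul' _ _ := rfl
  map_zero' := rfl
  map_add' _ _ := rfl
  commutes' _ := rfl
  map_star' _ := rfl

/-- constants -/
def kc (s : ℕ → Bool) (n : ℕ) : (∀ t : Fin (n + 1), MA (Fin (N s n t)) ℂ) →⋆ₐ[ℂ] A s n where
  toFun f t := ⟨fun _ => f t, continuous_const⟩
  map_one' := rfl
  map_mul' _ _ := rfl
  map_zero' := rfl
  map_add' _ _ := rfl
  commutes' _ := rfl
  map_star' _ := rfl

lemma PB_zero (s : ℕ → Bool) (n : ℕ) (f : A s n) : PB s n 0 f = kc s n (ev s n f) := by
  funext t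
  ext1 y
  show f t (scX n t 0 y) = f t (x0 n t)
  rw [scX_zero]

/-- continuity in matrix algebras is continuity of the entries -/
lemma continuous_MA {Y C : Type} [TopologicalSpace Y] [CStarAlgebra C] {I : Type} [Fintype I]
    [DecidableEq I] (g : Y → MA I C) (h : ∀ a b, Continuous fun y => (g y).en a b) :
    Continuous g := by
  have h1 : Continuous fun y => (show Matrix I I C from fun a b => (g y).en a b) :=
    continuous_pi fun a => continuous_pi fun b => h a b
  exact h1

instance fdMA' (m : ℕ) (C : Type) [CStarAlgebra C] [FiniteDimensional ℂ C] :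
    FiniteDimensional ℂ (MA (Fin m) C) := by
  let e : (Fin m → Fin m → C) →ₗ[ℂ] MA (Fin m) C :=
    { toFun := fun f => MA.of f
      map_add' := fun _ _ => rfl
      map_smul' := fun _ _ => rfl }
  exact Module.Finite.of_surjective e (fun x => ⟨fun i j => x.en i j, rfl⟩)

/-- unitary matrices over a finite level are joined to `1` -/
lemma joined_level (s : ℕ → Bool) (n m : ℕ) (u : unitary (MA (Fin m) (A s n))) :
    Joined u 1 := by
  -- the homotopy
  have h1 : Joined (um (MA.map (PB s n 0)) u) u := by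
    refine ⟨⟨⟨fun r => um (MA.map (PB s n r)) u, ?_⟩, rfl, ?_⟩⟩
    · refine Continuous.subtype_mk ?_ _
      refine continuous_MA _ fun a b => ?_
      exact continuous_PB s n _
    · refine Subtype.ext (MA.ext fun a b => ?_)
      exact PB_one s n _
  have h2 : um (MA.map (PB s n 0)) u = um (MA.map (kc s n)) (um (MA.map (ev s n)) u) := by
    refine Subtype.ext (MA.ext fun a b => ?_)
    exact PB_zero s n _
  have h3 : Joined (1 : unitary (MA (Fin m) (∀ t : Fin (n + 1), MA (Fin (N s n t)) ℂ)))
      (um (MA.map (ev s n)) u) := joined_fd _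
  have h4 := joined_map (MA.map (kc s n)) h3
  rw [um_one, ← h2] at h4
  exact (h4.trans h1).symm

end KO

theorem t_KO : S_KO := by
  intro s L _ j hj m U hU
  have hW : toMA U ∈ unitary (MA (Fin m) L) := by
    rw [Unitary.mem_iff] at hU ⊢
    exact ⟨congrArg toMA hU.1, congrArg toMA hU.2⟩
  set W : unitary (MA (Fin m) L) := ⟨toMA U, hW⟩ with hWdef
  obtain ⟨n, hn⟩ := approx_MA hj (toMA U) (ε := 1 / 8) (by norm_num)
  obtain ⟨x, hx⟩ := hn n le_rfl
  set F : StarSubalgebra ℂ (MA (Fin m) L) :=
    (MA.map (j n) : MA (Fin m) (A s n) →⋆ₐ[ℂ] MA (Fin m) L).range with hF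
  have hinj : Function.Injective (MA.map (j n) : MA (Fin m) (A s n) →⋆ₐ[ℂ] MA (Fin m) L) :=
    MA_map_inj _ (hj.inj n)
  have hiso : Isometry (MA.map (j n) : MA (Fin m) (A s n) →⋆ₐ[ℂ] MA (Fin m) L) :=
    NonUnitalStarAlgHom.isometry ((MA.map (j n) : MA (Fin m) (A s n) →⋆ₐ[ℂ] MA (Fin m) L) :
      MA (Fin m) (A s n) →⋆ₙₐ[ℂ] MA (Fin m) L) hinj
  have hcl : IsClosed (F : Set (MA (Fin m) L)) := by
    have : (F : Set (MA (Fin m) L)) =
        Set.range (MA.map (j n) : MA (Fin m) (A s n) →⋆ₐ[ℂ] MA (Fin m) L) := by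
      rw [hF]; rfl
    rw [this]
    exact hiso.isClosedEmbedding.isClosed_range
  obtain ⟨v, ⟨y, hy⟩, hv⟩ := Pool.Agent.TH268.JB.polar_near F hcl W (MA.map (j n) x) ⟨x, rfl⟩ hx
  have hy' : MA.map (j n) y = (v : MA (Fin m) L) := hy
  have hyu : y ∈ unitary (MA (Fin m) (A s n)) := by
    rw [Unitary.mem_iff]
    constructor
    · apply hinj
      rw [map_mul, map_star, map_one, hy', Unitary.coe_star_mul_self]
    · apply hinj
      rw [map_mul, map_star, map_one, hy', Unitary.mul_star_self_of_mem v.2]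
  have h1 : Joined v W := Unitary.joined v W hv
  have h2 : Joined v 1 := by
    have h3 := KO.joined_map (MA.map (j n)) (KO.joined_level s n m ⟨y, hyu⟩)
    have h4 : KO.um (MA.map (j n)) ⟨y, hyu⟩ = v := Subtype.ext hy'
    rwa [h4, KO.um_one] at h3
  obtain ⟨γ⟩ := h1.symm.trans h2
  refine ⟨⟨⟨fun r => frMA (γ r : MA (Fin m) L), ?_⟩, ?_, ?_⟩, ?_⟩
  · have h5 : Continuous fun r => (γ r : MA (Fin m) L) := continuous_subtype_val.comp γ.continuous
    exact h5
  · show frMA (γ 0 : MA (Fin m) L) = U
    rw [γ.source]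
    rfl
  · show frMA (γ 1 : MA (Fin m) L) = 1
    rw [γ.target]
    rfl
  · intro r
    have h6 := (γ r).2
    rw [Unitary.mem_iff] at h6
    show frMA (γ r : MA (Fin m) L) ∈ unitary (Matrix (Fin m) (Fin m) L)
    rw [Unitary.mem_iff]
    exact ⟨congrArg frMA h6.1, congrArg frMA h6.2⟩

end Run7.h745.AH
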